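import Pool.Agent.H47.PL.Targets

/-!
Planted random k-CNFs (MP_c62aed_lc), row PRS of the board `pln_modules`: the pairs, sorted by the
formula without the signs.
-/

set_option autoImplicit false

namespace Pool.Agent.H40.PL

open Finset Pool.Agent.H97.RK Pool.Agent.H47.PL

/-- all patterns but one -/
private theorem card_pat {k : ℕ} (a : Fin k → Bool) [DecidablePred fun y : Fin k → Bool =>
    ∃ i, a i = y i] : (univ.filter fun y : Fin k → Bool => ∃ i, a i = y i).card = 2 ^ k - 1 := by
  classical
  have h1 : (univ.filter fun y : Fin k → Bool => ∃ i, a i = y i) = univ.erase fun i => !a i := by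
    ext y
    rw [mem_filter, mem_erase]
    constructor
    · rintro ⟨_, i, hi⟩
      refine ⟨?_, mem_univ _⟩
      rintro rfl
      have hi' : a i = !a i := hi
      revert hi'
      cases a i <;> simp
    · rintro ⟨hne, _⟩
      refine ⟨mem_univ _, ?_⟩
      by_contra hc
      apply hne
      funext i
      have h2 : ¬ a i = y i := fun h => hc ⟨i, h⟩
      revert h2
      cases a i <;> cases y i <;> simp
  rw [h1, card_erase_of_mem (mem_univ _), card_univ, Fintype.card_fun, Fintype.card_bool,
    Fintype.card_fin]

private theorem card_signs {n k m : ℕ} (g : Fin m → Fin k → Fin n) (τ : Fin n → Bool)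
    [DecidablePred fun x : Fin m → Fin k → Bool => ∀ c, ∃ i, τ (g c i) = x c i] :
    (univ.filter fun x : Fin m → Fin k → Bool => ∀ c, ∃ i, τ (g c i) = x c i).card =
      (2 ^ k - 1) ^ m := by
  classical
  have h1 : (univ.filter fun x : Fin m → Fin k → Bool => ∀ c, ∃ i, τ (g c i) = x c i) =
      Fintype.piFinset fun c : Fin m => univ.filter fun y : Fin k → Bool =>
        ∃ i, τ (g c i) = y i := by
    ext x
    simp only [mem_filter, mem_univ, true_and, Fintype.mem_piFinset]
  rw [h1, Fintype.card_piFinset]
  rw [Finset.prod_congr rfl fun c _ => card_pat fun i => τ (g c i)]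
  rw [prod_const, card_univ, Fintype.card_fin]

private theorem card_pairs {n k m : ℕ} (g : Fin m → Fin k → Fin n)
    [DecidablePred fun x : (Fin m → Fin k → Bool) × (Fin n → Bool) => Sat (mk g x.1) x.2] :
    (univ.filter fun x : (Fin m → Fin k → Bool) × (Fin n → Bool) => Sat (mk g x.1) x.2).card =
      2 ^ n * (2 ^ k - 1) ^ m := by
  classical
  rw [Finset.card_eq_sum_card_fiberwise (f := fun x => x.2) (t := univ) (fun _ _ => mem_univ _)]
  have h1 : ∀ τ ∈ (univ : Finset (Fin n → Bool)),
      ((univ.filter fun x : (Fin m → Fin k → Bool) × (Fin n → Bool) =>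
        Sat (mk g x.1) x.2).filter fun x => x.2 = τ).card = (2 ^ k - 1) ^ m := by
    intro τ _
    rw [← card_signs g τ]
    refine Finset.card_nbij' (fun x => x.1) (fun y => (y, τ)) ?_ ?_ ?_ ?_
    · intro x hx
      simp only [coe_filter, mem_univ, true_and, mem_filter, Set.mem_ofPred_eq] at hx ⊢
      obtain ⟨h1, h2⟩ := hx
      rw [h2] at h1
      exact h1
    · intro y hy
      simp only [coe_filter, mem_univ, true_and, mem_filter, Set.mem_ofPred_eq] at hy ⊢
      exact ⟨hy, trivial⟩
    · intro x hx
      simp only [coe_filter, mem_univ, true_and, mem_filter, Set.mem_ofPred_eq] at hx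
      exact Prod.ext rfl hx.2.symm
    · intro y _
      rfl
  rw [Finset.sum_congr rfl h1, sum_const, card_univ, Fintype.card_fun, Fintype.card_bool,
    Fintype.card_fin, smul_eq_mul]

private theorem card_fib {n k m : ℕ} (p : Fml n k m × (Fin n → Bool) → Prop)
    [DecidablePred fun a : Fml n k m × (Fin n → Bool) => Dist a.1 ∧ p a]
    [DecidablePred fun g : Fin m → Fin k → Fin n => ∀ c, Function.Injective (g c)]
    [∀ g : Fin m → Fin k → Fin n, DecidablePred
      fun x : (Fin m → Fin k → Bool) × (Fin n → Bool) => p (mk g x.1, x.2)] :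
    (univ.filter fun a : Fml n k m × (Fin n → Bool) => Dist a.1 ∧ p a).card =
      ∑ g ∈ univ.filter fun g : Fin m → Fin k → Fin n => ∀ c, Function.Injective (g c),
        (univ.filter fun x : (Fin m → Fin k → Bool) × (Fin n → Bool) => p (mk g x.1, x.2)).card
    := by
  rw [Finset.card_eq_sum_card_fiberwise (f := fun a => vars a.1)
    (t := univ.filter fun g : Fin m → Fin k → Fin n => ∀ c, Function.Injective (g c)) (by
      intro a ha
      simp only [coe_filter, mem_univ, true_and, Set.mem_ofPred_eq] at ha ⊢
      exact ha.1)]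
  refine Finset.sum_congr rfl fun g hg => ?_
  rw [mem_filter] at hg
  have hmk : ∀ F : Fml n k m, vars F = g → F = mk g fun c i => (F c i).2 := by
    rintro F rfl
    rfl
  refine Finset.card_nbij' (fun a => ((fun c i => (a.1 c i).2), a.2)) (fun x => (mk g x.1, x.2))
    ?_ ?_ ?_ ?_
  · intro a ha
    simp only [coe_filter, mem_univ, true_and, mem_filter, Set.mem_ofPred_eq] at ha ⊢
    rw [← hmk a.1 ha.2]
    exact ha.1.2
  · intro x hx
    simp only [coe_filter, mem_univ, true_and, mem_filter, Set.mem_ofPred_eq] at hx ⊢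
    exact ⟨⟨hg.2, hx⟩, rfl⟩
  · intro a ha
    simp only [coe_filter, mem_univ, true_and, mem_filter, Set.mem_ofPred_eq] at ha
    exact Prod.ext (hmk a.1 ha.2).symm rfl
  · intro x _
    rfl

theorem pf_PRS : T_PRS := by
  classical
  intro n k m
  refine ⟨?_, fun p => card_fib p⟩
  rw [card_fib fun a : Fml n k m × (Fin n → Bool) => Sat a.1 a.2]
  rw [Finset.sum_congr rfl fun g _ => card_pairs g, sum_const, smul_eq_mul]

end Pool.Agent.H40.PL
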